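import Mathlib
import Pool.Graph.R_seed8.R47.PK.Final
import Pool.Graph.R_seed8.R47.PK.Asy
import Pool.Agent.KS6_29.PF.Fin
import Pool.Agent.KS6_29.PF.Num

/-!
MP_9d63a4_co, Q1: the number of parking functions on recursive trees.

`R47.PK.numR n m` is the number `R_{n+1,m}` of pairs (recursive tree with `n + 1` nodes, parking
function with `m` drivers on it).

Parts (1) and (2) are the formulas of the library result `BesselFormula`; new is part (3), the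
asymptotic behaviour of `R_{n,n-k}` for every fixed number `k` of free places.
-/

namespace Pool.Agent.Results.MP_9d63a4_co.FewFreePlaces

open PowerSeries Filter Topology R47.PK

/-- `∑ (-u t)^k / (k!)²`, the power series in `t` of `J₀(2√(ut))` -/
noncomputable def J0 (u : ℚ) : ℚ⟦X⟧ := PowerSeries.mk fun k => (-u) ^ k / (k.factorial : ℚ) ^ 2

/-- `∑ (-u t)^k / (k! (k+1)!)`, the power series in `t` of `J₁(2√(ut))/√(ut)` -/
noncomputable def J1 (u : ℚ) : ℚ⟦X⟧ :=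
  PowerSeries.mk fun k => (-u) ^ k / ((k.factorial : ℚ) * ((k + 1).factorial : ℚ))

/-- `Z(t)/t`, where `Z(t) = ∫₀ᵗ e^{-ε s} J₀(2√(us)) ds` -/
noncomputable def Zt (u ε : ℚ) : ℚ⟦X⟧ :=
  PowerSeries.mk fun k => coeff k (rescale (-ε) (PowerSeries.exp ℚ) * J0 u) / (k + 1)

lemma serB_eq (u : ℚ) : serB u = J0 u := by
  ext k
  rw [serB, J0, coeff_mk, coeff_mk]
  simp only [eq_ratCast, Rat.cast_id]
  field_simp

lemma serP_eq (u : ℚ) : serP u = J1 u := by
  ext k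
  rw [serP, J1, coeff_mk, coeff_mk]
  simp only [eq_ratCast, Rat.cast_id]
  field_simp

lemma serZt_eq (u ε : ℚ) : serZt u ε = Zt u ε := by
  ext k
  rw [serZt, Zt, coeff_mk, coeff_mk, serZ', serB_eq]
  simp only [eq_ratCast, Rat.cast_id]
  field_simp

lemma J0_const (u : ℚ) : constantCoeff (J0 u) ≠ 0 := by
  rw [← coeff_zero_eq_constantCoeff_apply, J0, coeff_mk]; norm_num

lemma J1_const (u : ℚ) : constantCoeff (J1 u) ≠ 0 := by
  rw [← coeff_zero_eq_constantCoeff_apply, J1, coeff_mk]; norm_num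

lemma Zt_const (u ε : ℚ) : constantCoeff (Zt u ε) ≠ 0 := by
  have h := Zt_mul_V u ε
  rw [serZt_eq] at h
  have h2 := congrArg constantCoeff h
  rw [map_mul, map_one] at h2
  exact left_ne_zero_of_mul_eq_one h2

lemma invB_eq (u : ℚ) : invB u = (J0 u)⁻¹ :=
  inv_unique (a := J0 u) (by rw [← serB_eq]; exact B_mul_inv u)
    (PowerSeries.mul_inv_cancel _ (J0_const u))

lemma serV_eq (u ε : ℚ) : serV u ε = (Zt u ε)⁻¹ :=
  inv_unique (a := Zt u ε) (by rw [← serZt_eq]; exact Zt_mul_V u ε)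
    (PowerSeries.mul_inv_cancel _ (Zt_const u ε))

/-- the formula for all the numbers `R_{n+1,m}` -/
theorem formula (n : ℕ) (u ε : ℚ) :
    ∑ m ∈ Finset.range (n + 2), (numR n m : ℚ) / m.factorial * ε ^ (n + 1 - m) * u ^ m =
      n.factorial * coeff n ((C u * J1 u * (J0 u)⁻¹ + C ε) * ((Zt u ε)⁻¹) ^ (n + 1)) := by
  rw [sum_numR, serQ, serP_eq, invB_eq, serV_eq]

lemma Zt_one_zero : Zt 1 0 = J1 1 := by
  ext k
  rw [Zt, J1, coeff_mk, coeff_mk, neg_zero, rescale_zero]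
  simp only [RingHom.comp_apply]
  have : constantCoeff (PowerSeries.exp ℚ) = 1 := by
    rw [← coeff_zero_eq_constantCoeff_apply, coeff_exp]; simp
  rw [this, map_one, one_mul, J0, coeff_mk, Nat.factorial_succ]
  push_cast
  field_simp

/-- the numbers `R_{n+1}` -/
theorem diagonal (n : ℕ) :
    (numR n (n + 1) : ℚ) =
      (n + 1).factorial * n.factorial * coeff n ((J0 1)⁻¹ * ((J1 1)⁻¹) ^ n) := by
  have h := formula n 1 0
  rw [Finset.sum_eq_single (n + 1)] at h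
  · rw [Nat.sub_self, pow_zero, mul_one, one_pow, mul_one, Zt_one_zero] at h
    have h2 : (C (1 : ℚ) * J1 1 * (J0 1)⁻¹ + C (0 : ℚ)) * ((J1 1)⁻¹) ^ (n + 1) =
        (J0 1)⁻¹ * ((J1 1)⁻¹) ^ n := by
      rw [map_one, map_zero, one_mul, add_zero, pow_succ]
      calc J1 1 * (J0 1)⁻¹ * ((J1 1)⁻¹ ^ n * (J1 1)⁻¹)
          = (J1 1 * (J1 1)⁻¹) * ((J0 1)⁻¹ * ((J1 1)⁻¹) ^ n) := by ring
        _ = _ := by rw [PowerSeries.mul_inv_cancel _ (J1_const 1), one_mul]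
    rw [h2] at h
    have h3 : ((n + 1).factorial : ℚ) ≠ 0 := by positivity
    rw [div_eq_iff h3] at h
    rw [h]; ring
  · intro m hm hne
    rw [Finset.mem_range] at hm
    have : n + 1 - m ≠ 0 := by omega
    rw [zero_pow this]; ring
  · intro h; exact absurd (Finset.mem_range.mpr (by omega)) h

/-- **Main theorem.** -/
theorem result :
    -- (1) all the numbers `R_{n+1,m}`
    (∀ (n : ℕ) (u ε : ℚ),
      ∑ m ∈ Finset.range (n + 2), (numR n m : ℚ) / m.factorial * ε ^ (n + 1 - m) * u ^ m =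
        n.factorial * coeff n ((C u * J1 u * (J0 u)⁻¹ + C ε) * ((Zt u ε)⁻¹) ^ (n + 1))) ∧
    -- (2) the numbers `R_{n+1} = R_{n+1,n+1}`
    (∀ n : ℕ, (numR n (n + 1) : ℚ) =
      (n + 1).factorial * n.factorial * coeff n ((J0 1)⁻¹ * ((J1 1)⁻¹) ^ n)) ∧
    -- (3) the asymptotic behaviour of `R_{n+1,n+1-k}` for every fixed `k`
    (∃ t0 : ℝ, 1.44 < t0 ∧ t0 < 1.45 ∧ Bf t0 = 0 ∧ (∀ t, 0 ≤ t → t < t0 → 0 < Bf t) ∧ 0 < Pf t0 ∧
      (∀ k : ℕ, Tendsto (fun n : ℕ => (numR n (n + 1 - k) : ℝ) /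
        (((n + 1).factorial : ℝ) ^ 2 / (2 * (n + 1) * (t0 * Pf t0) ^ (n + 1)))) atTop
        (𝓝 ((t0 - 1) ^ k / k.factorial))) ∧
      (∀ k : ℕ, Tendsto (fun n : ℕ => (numR n (n + 1 - k) : ℝ) / (numR n (n + 1) : ℝ)) atTop
        (𝓝 ((t0 - 1) ^ k / k.factorial)))) := by
  refine ⟨formula, diagonal, ?_⟩
  obtain ⟨t0, h0, h1, h2, h3, h4⟩ := Pool.Agent.KS6_29.PF.main
  obtain ⟨h5, h6⟩ := Pool.Agent.KS6_29.PF.t0_bounds h0 h1 h2
  refine ⟨t0, h5, h6, h1, h2, h3, h4, fun k => ?_⟩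
  have h7 := (h4 k).div (h4 0) (by norm_num)
  have h8 : (t0 - 1) ^ k / (k.factorial : ℝ) =
      (t0 - 1) ^ k / (k.factorial : ℝ) / ((t0 - 1) ^ 0 / ((0 : ℕ).factorial : ℝ)) := by simp
  rw [h8]
  refine h7.congr fun n => ?_
  have h9 : (((n + 1).factorial : ℝ) ^ 2 / (2 * (n + 1) * (t0 * Pf t0) ^ (n + 1))) ≠ 0 := by
    positivity
  rw [Pi.div_apply, Nat.sub_zero, div_div_div_cancel_right₀ h9]

end Pool.Agent.Results.MP_9d63a4_co.FewFreePlaces
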